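import Pool.Agent.Q90.SLSolv

/-!
# Infinite profinite CA-groups that are not prosoluble
-/

set_option autoImplicit false

open scoped PowerSeries.WithPiTopology MatrixGroups

namespace Pool.Agent.Results.MP_d2e4ca_al.InfiniteNonProsoluble

universe u

/-- `G` is a CA-group: the centralizer of every nontrivial element is abelian. -/
def IsCA (G : Type u) [Group G] : Prop :=
  ∀ x : G, x ≠ 1 → ∀ a b : G, a * x = x * a → b * x = x * b → a * b = b * a

/-- `G` is profinite: a compact Hausdorff totally disconnected topological group. -/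
def IsProfinite (G : Type u) [Group G] [TopologicalSpace G] : Prop :=
  IsTopologicalGroup G ∧ CompactSpace G ∧ T2Space G ∧ TotallyDisconnectedSpace G

/-- The profinite group `G` is prosoluble: all its quotients by open normal subgroups are
soluble. -/
def IsProsoluble (G : Type u) [Group G] [TopologicalSpace G] : Prop :=
  ∀ (N : Subgroup G) (_ : N.Normal), IsOpen (N : Set G) → Group.IsSolvable (G ⧸ N)

open Pool.Agent.Q90.SLR

theorem main (F : Type u) [Field F] [Finite F] [CharP F 2] (a : F) (ha : a ≠ 0) (ha1 : a ≠ 1) :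
    ∃ (G : Type u) (_ : Group G) (_ : TopologicalSpace G), IsProfinite G ∧ Infinite G ∧ IsCA G ∧
      ¬ IsProsoluble G ∧
      ∃ (N : Subgroup G) (_ : N.Normal), IsOpen (N : Set G) ∧ Nonempty (G ⧸ N ≃* SL(2, F)) := by
  let _ : TopologicalSpace F := ⊥
  have : DiscreteTopology F := ⟨rfl⟩
  have : CharP (PowerSeries F) 2 := by
    refine charP_of_injective_algebraMap (R := F) (A := PowerSeries F) ?_ 2
    exact (algebraMap F (PowerSeries F)).injective
  have ha2 : a ^ 2 ≠ 1 := by
    intro h
    have h2 : (2 : F) = 0 := CharTwo.two_eq_zero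
    have h3 : (a - 1) * (a - 1) = 0 := by linear_combination h - (a - 1) * h2
    exact ha1 (sub_eq_zero.1 (mul_self_eq_zero.1 h3))
  have hsurj : Function.Surjective (red F) := by
    intro g
    refine ⟨Matrix.SpecialLinearGroup.map (PowerSeries.C (R := F)) g, ?_⟩
    apply Matrix.SpecialLinearGroup.ext
    intro i j
    simp [red]
  have hiso : SL(2, PowerSeries F) ⧸ (red F).ker ≃* SL(2, F) :=
    QuotientGroup.quotientKerEquivOfSurjective (red F) hsurj
  refine ⟨SL(2, PowerSeries F), inferInstance, inferInstance,
    ⟨inferInstance, inferInstance, inferInstance, inferInstance⟩, ?_, ?_, ?_,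
    (red F).ker, inferInstance, isOpen_ker_red F, ⟨hiso⟩⟩
  · have hinf : Infinite (PowerSeries F) := by
      apply Infinite.of_injective (fun n : ℕ => (PowerSeries.X : PowerSeries F) ^ n)
      intro m n hmn
      have h1 := congrArg (PowerSeries.coeff (R := F) m) hmn
      simp only [PowerSeries.coeff_X_pow, if_true] at h1
      by_contra hne
      rw [if_neg hne] at h1
      exact one_ne_zero h1
    apply Infinite.of_injective (fun r : PowerSeries F =>
      (⟨!![1, r; 0, 1], by simp⟩ : SL(2, PowerSeries F)))
    intro r s hrs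
    have h1 := congrArg (fun z : SL(2, PowerSeries F) => z 0 1) hrs
    simpa using h1
  · intro x hx a b hax hbx
    exact comm_trans x a b hx hax.symm hbx.symm
  · intro hps
    have h1 := hps (red F).ker inferInstance (isOpen_ker_red F)
    apply not_solvable a ha ha2
    exact Group.isSolvable_of_surjective (f := hiso.toMonoidHom) hiso.surjective

/-- For every `m ≥ 2` there is an infinite profinite CA-group which is not prosoluble and has
`SL₂(2ᵐ) = PSL₂(2ᵐ)` as quotient by an open normal subgroup. -/
theorem result (m : ℕ) (hm : 2 ≤ m) :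
    ∃ (G : Type) (_ : Group G) (_ : TopologicalSpace G), IsProfinite G ∧ Infinite G ∧ IsCA G ∧
      ¬ IsProsoluble G ∧
      ∃ (N : Subgroup G) (_ : N.Normal), IsOpen (N : Set G) ∧
        Nonempty (G ⧸ N ≃* SL(2, GaloisField 2 m)) := by
  have hcard : Nat.card (GaloisField 2 m) = 2 ^ m := GaloisField.card 2 m (by omega)
  have hfin : Finite (GaloisField 2 m) := Nat.finite_of_card_ne_zero (by rw [hcard]; positivity)
  obtain ⟨a, ha, ha1⟩ : ∃ a : GaloisField 2 m, a ≠ 0 ∧ a ≠ 1 := by
    by_contra hcon
    push Not at hcon
    have hsub : (Set.univ : Set (GaloisField 2 m)) ⊆ {0, 1} := by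
      intro a _
      by_cases h : a = 0
      · left; exact h
      · right; exact hcon a h
    have h1 := Set.ncard_le_ncard hsub (by simp)
    rw [Set.ncard_univ, hcard] at h1
    have h2 : ({0, 1} : Set (GaloisField 2 m)).ncard ≤ 2 := Set.ncard_insert_le _ _ |>.trans (by simp)
    have h3 : 2 ^ 2 ≤ 2 ^ m := Nat.pow_le_pow_right (by norm_num) hm
    omega
  exact main (GaloisField 2 m) a ha ha1

end Pool.Agent.Results.MP_d2e4ca_al.InfiniteNonProsoluble
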